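import Pool.Agent.Helper33.SchurUpper

set_option autoImplicit false

/-!
# Project LO: the seven-interval 3-colouring is a strict local minimum (MP_c13f7d_co)

`col m` (Helper33) is the colouring of `{1, …, 67 m}` whose block `k` (the integers
`k m < x ≤ (k+1) m`) has the colour `blk k`; its classes are unions of intervals with endpoints
`e i * m`, `e = 10, 24, 26, 54, 55, 66`.  `F N χ` is the number of ordered monochromatic pairs
`(x, y)`; `F (67 m) (col m) = 67 m² - 13 m`.  Target: every 3-colouring which differs from the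
seven-interval colouring in `d ≤ n / 12000` places has at least `n² / 134 + d² / 100 - K n`
monochromatic Schur triples.
-/

namespace Pool.Agent.Helper43.LO

open Finset Pool.Agent.Helper33.Schur

/-- ordered monochromatic pairs `(x, y)`, `x + y ≤ N` -/
def F (N : ℕ) (χ : ℕ → Fin 3) : ℕ :=
  ((Icc 1 N ×ˢ Icc 1 N).filter
    (fun q : ℕ × ℕ => q.1 + q.2 ≤ N ∧ χ q.1 = χ q.2 ∧ χ q.2 = χ (q.1 + q.2))).card

/-- number of ordered triples `(x, y, x + y)` through `z` (as sum, as first or as second summand)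
whose two other members have colour `c` under `f` -/
def W (N : ℕ) (f : ℕ → Fin 3) (c : Fin 3) (z : ℕ) : ℕ :=
  ((Icc 1 (z - 1)).filter (fun x => f x = c ∧ f (z - x) = c)).card +
  2 * ((Icc 1 (N - z)).filter (fun x => f x = c ∧ f (x + z) = c)).card

/-- the places of `{1, …, N}` where the two colourings differ -/
def dif (N : ℕ) (χ f : ℕ → Fin 3) : Finset ℕ := (Icc 1 N).filter (fun x => χ x ≠ f x)

/-- first order gain of recolouring `x` with the colour `q` in `col m` -/
def gap (m : ℕ) (q : Fin 3) (x : ℕ) : ℤ :=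
  (W (67 * m) (col m) q x : ℤ) - W (67 * m) (col m) (col m x) x

/-- block pair counts -/
def Sb (c : Fin 3) (k : ℕ) : ℕ :=
  ((range (k + 1)).filter (fun i => blk i = c ∧ blk (k - i) = c)).card
def Sp (c : Fin 3) (k : ℕ) : ℕ := if k = 0 then 0 else Sb c (k - 1)
def Db (c : Fin 3) (k : ℕ) : ℕ :=
  ((range (67 - k)).filter (fun i => blk i = c ∧ blk (i + k) = c)).card

/-- endpoints, colour on the left, colour on the right, slope of the gap -/
def e (i : Fin 6) : ℕ := if i = 0 then 10 else if i = 1 then 24 else if i = 2 then 26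
  else if i = 3 then 54 else if i = 4 then 55 else 66
def lc (i : Fin 6) : Fin 3 := if i = 0 then 0 else if i = 1 then 1 else if i = 2 then 0
  else if i = 3 then 2 else if i = 4 then 0 else 1
def rc (i : Fin 6) : Fin 3 := if i = 0 then 1 else if i = 1 then 0 else if i = 2 then 2
  else if i = 3 then 0 else if i = 4 then 1 else 0
def sl (i : Fin 6) : ℤ := if i = 0 then 3 else if i = 1 then 1 else if i = 2 then 2
  else if i = 3 then 1 else if i = 4 then 2 else 2

/-- `x` is on the right of the endpoint `i`, at distance at most `m/4`, and gets the left colour -/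
def isR (m : ℕ) (i : Fin 6) (x : ℕ) (q : Fin 3) : Prop :=
  e i * m < x ∧ 4 * x ≤ (4 * e i + 1) * m ∧ q = lc i
/-- `x` is on the left of the endpoint `i`, at distance less than `m/4`, and gets the right colour -/
def isL (m : ℕ) (i : Fin 6) (x : ℕ) (q : Fin 3) : Prop :=
  x ≤ e i * m ∧ (4 * e i) * m < 4 * x + m ∧ q = rc i
/-- `x` is in the middle part of the third class and gets the colour `0` -/
def isP (m : ℕ) (x : ℕ) (q : Fin 3) : Prop := 29 * m < x ∧ x ≤ 51 * m ∧ q = 0

instance (m : ℕ) (i : Fin 6) (x : ℕ) (q : Fin 3) : Decidable (isR m i x q) := by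
  unfold isR; infer_instance
instance (m : ℕ) (i : Fin 6) (x : ℕ) (q : Fin 3) : Decidable (isL m i x q) := by
  unfold isL; infer_instance
instance (m : ℕ) (x : ℕ) (q : Fin 3) : Decidable (isP m x q) := by
  unfold isP; infer_instance

/-- recoloured places: of endpoint type (right, left), plateau, and the rest -/
def ER (m : ℕ) (χ : ℕ → Fin 3) (i : Fin 6) : Finset ℕ :=
  (Icc 1 (67 * m)).filter (fun x => isR m i x (χ x))
def EL (m : ℕ) (χ : ℕ → Fin 3) (i : Fin 6) : Finset ℕ :=
  (Icc 1 (67 * m)).filter (fun x => isL m i x (χ x))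
def PP (m : ℕ) (χ : ℕ → Fin 3) : Finset ℕ :=
  (Icc 1 (67 * m)).filter (fun x => isP m x (χ x))
def RR (m : ℕ) (χ : ℕ → Fin 3) : Finset ℕ :=
  (dif (67 * m) χ (col m)).filter
    (fun x => ¬ isP m x (χ x) ∧ ∀ i : Fin 6, ¬ isR m i x (χ x) ∧ ¬ isL m i x (χ x))

/-- signed indicator of the change at `x` -/
def h (χ f : ℕ → Fin 3) (c : Fin 3) (x : ℕ) : ℤ :=
  (if χ x = c then 1 else 0) - (if f x = c then 1 else 0)
/-- indicator -/
def ind (f : ℕ → Fin 3) (c : Fin 3) (x : ℕ) : ℤ := if f x = c then 1 else 0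

/-- all pairs -/
def prs (N : ℕ) : Finset (ℕ × ℕ) := (Icc 1 N ×ˢ Icc 1 N).filter (fun q => q.1 + q.2 ≤ N)

/-- second and third order terms -/
def Q2 (N : ℕ) (χ f : ℕ → Fin 3) : ℤ :=
  ∑ q ∈ prs N, ∑ c : Fin 3,
    (h χ f c q.1 * h χ f c q.2 * ind f c (q.1 + q.2)
      + h χ f c q.1 * ind f c q.2 * h χ f c (q.1 + q.2)
      + ind f c q.1 * h χ f c q.2 * h χ f c (q.1 + q.2)
      + h χ f c q.1 * h χ f c q.2 * h χ f c (q.1 + q.2))

/-- the coefficients of the second order terms at the endpoints -/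
def kap (i j : Fin 6) : ℤ :=
  (!![2, -1, 0, 0, 1, -1; -1, 1, -1, 0, 0, 0; 0, -1, 2, -1, 0, 0; 0, 0, -1, 1, -1, 0;
      1, 0, 0, -1, 1, -1; -1, 0, 0, 0, -1, 1] : Matrix (Fin 6) (Fin 6) ℤ) i j

/-- BLK.  Exact value of `W` for the block colouring.  Proof: let `z = k m + t`.  Sums: write
`x = i m + u`, `1 ≤ u ≤ m`; if `u < t` then `z - x = (k-i) m + (t-u)` is in block `k - i`
(`t - 1` values of `u`), if `u ≥ t` then `z - x = (k-1-i) m + (m+t-u)` is in block `k - 1 - i`
(`m - t + 1` values; needs `i ≤ k - 1`).  Differences: `x = i m + u`, `x + z = (i+k) m + (t+u)` is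
in block `i + k` for `u ≤ m - t` and in block `i + k + 1` for `u > m - t`; the condition
`x + z ≤ 67 m` is `i + k ≤ 66`, resp. `i + k + 1 ≤ 66`.  Template for the bookkeeping:
Pool/Agent/Helper33/SchurUpper.lean. -/
def G_BLK : Prop :=
  ∀ (m : ℕ) (c : Fin 3) (k t : ℕ), 1 ≤ m → k ≤ 66 → 1 ≤ t → t ≤ m →
    W (67 * m) (col m) c (k * m + t) =
      (t - 1) * Sb c k + (m - t + 1) * Sp c k + 2 * ((m - t) * Db c k + t * Db c (k + 1))

/-- GAP.  First order.  Proof: for `x = k m + t` the number `gap m q x` equals, by BLK,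
`(m-t) Γ(k) + t Γ(k+1) + const` with `Γ(k) = (Sp q k + 2 Db q k) - (Sp p k + 2 Db p k)`, `p = blk k`,
`const = (Sp q k - Sb q k) - (Sp p k - Sb p k) ∈ {-1,…,2}`.  By `decide` over `k ≤ 66` and `q ≠ p`:
`Γ(k), Γ(k+1) ≥ 0`, both vanish only for `q = 0`, `k ∈ {36,37,38,39,43}` (so `x` is of type P);
`Γ(k) = 0 < Γ(k+1)` only for `q = 0, 29 ≤ k ≤ 50` (type P) or `k = e i`, `q = lc i`,
`Γ(k+1) = sl i`; `Γ(k+1) = 0 < Γ(k)` only for `q = 0, 29 ≤ k ≤ 50` or `k + 1 = e i`, `q = rc i`,
`Γ(k) = sl i`.  So on the right side `gap ≥ sl i * t - 1`, on the left side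
`gap ≥ sl i * (m - t) - 1`, and in the remaining cases either both `Γ ≥ 1` or the distance to the
endpoint is at least `m/4`, hence `4 * gap ≥ m - 4`.  (Checked by computer for all x, m ≤ 40.) -/
def G_GAP : Prop :=
  ∀ (m x : ℕ) (q : Fin 3), 1 ≤ m → 1 ≤ x → x ≤ 67 * m → q ≠ col m x →
    (∀ i : Fin 6, isR m i x q → sl i * ((x : ℤ) - e i * m) - 10 ≤ gap m q x) ∧
    (∀ i : Fin 6, isL m i x q → sl i * ((e i : ℤ) * m - x) - 10 ≤ gap m q x) ∧
    (¬ isP m x q → (∀ i : Fin 6, ¬ isR m i x q ∧ ¬ isL m i x q) → (m : ℤ) - 40 ≤ 4 * gap m q x)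

/-- LIN.  General inequality.  Proof: for a pair `(x, y)` let `a, b, c` be the colours of
`x, y, x + y` under `f`, `a', b', c'` the colours under `χ`, and `u, v, w` the statements that
`x, y, x + y` belong to `D1`.  With `M(a,b,c) = 1` if `a = b = c` and `0` otherwise, and
`a2 = a` if `u`, else `a'` (the same for `b2, c2`) one has (finite check, `decide`, all colours in
`Fin 3`, using that `u` implies `a ≠ a'` etc.)
`M(a',b',c') + 2 * [at least two of a≠a', b≠b', c≠c' hold, and at least one of u, v, w] ≥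
M(a2,b2,c2) + u (M(a',b,c) - M(a,b,c)) + v (M(a,b',c) - M(a,b,c)) + w (M(a,b,c') - M(a,b,c))`.
Sum over all pairs: the three last sums give `∑_{z ∈ D1} (W (χ z) z - W (f z) z)` (the pairs with
`x ∈ D1` are counted by the second part of `W`, the same for `y`, those with `x + y ∈ D1` by the
first part), and the number of bad pairs is at most `6 * |D| * |D1|` (choose the two positions,
ordered; a pair is determined by two of its three members). -/
def G_LIN : Prop :=
  ∀ (N : ℕ) (χ f : ℕ → Fin 3) (D1 : Finset ℕ), D1 ⊆ dif N χ f →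
    (F N (fun x => if x ∈ D1 then f x else χ x) : ℤ)
      + ∑ z ∈ D1, ((W N f (χ z) z : ℤ) - W N f (f z) z)
      - 12 * (dif N χ f).card * D1.card ≤ F N χ

/-- PLAT.  The middle part of the third class.  Let `P = PP m χ`, `R = RR m χ` and let `χ1` be
`col m` on `P` and `χ` elsewhere.  Proof.  A pair without member in `P` counts the same for `χ`
and `χ1`.  (1) A pair with a member in `P` which is monochromatic for `χ1` has colour 2, and it has
a member in `R`: otherwise each of the three members is in `(26 m - m/4, 54 m + m/4]` (members of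
colour 2 under `χ1` are either of colour 2 under `col m`, so in `(26m, 54m]`, or recoloured to 2
and not in `R`, so of type isL at the endpoint 26 or isR at the endpoint 54), and then the member
`w ∈ P`, `29 m < w ≤ 51 m`, cannot be a summand (`w + (26 m - m/4) > 54 m + m/4`) nor the sum
(`2 (26 m - m/4) > 51 m`).  So there are at most `6 |P| |R|` such pairs.  (2) Monochromatic for `χ`:
for `y < z` in `P` with `z - y ≤ 9 m` and `z - y ∉ R` the pairs `(z - y, y)` and `(y, z - y)` are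
monochromatic of colour 0 for `χ` (`z - y ≤ 9 m` has colour 0 under `col m`, and if it is recoloured
it is in `R`, since no endpoint is within `m/4`).  Split `P` into the parts in `(29m,38m]`,
`(38m,47m]`, `(47m,51m]`: the number of pairs `y < z` in the same part is
`(∑ |P_w|² - |P|)/2 ≥ (|P|²/3 - |P|)/2`, and at most `|P| |R|` of them have `z - y ∈ R`.
All these pairs `(x, y)` are different and have a member in `P`.  Hence
`F χ ≥ F χ1 + |P|²/3 - |P| - 2 |P||R| - 6 |P||R|`. -/
def G_PLAT : Prop :=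
  ∀ (m : ℕ) (χ : ℕ → Fin 3), 1 ≤ m →
    3 * (F (67 * m) (fun x => if x ∈ PP m χ then col m x else χ x) : ℤ)
      + ((PP m χ).card : ℤ) ^ 2 - 3 * (PP m χ).card - 24 * (PP m χ).card * (RR m χ).card
      ≤ 3 * F (67 * m) χ

/-- EXP.  Exact expansion: `F = ∑_c ∑_{(x,y)} 1[χ x = c] 1[χ y = c] 1[χ (x+y) = c]` and
`1[χ x = c] = ind f c x + h χ f c x`; the first order terms are the sum of the gaps over `dif`. -/
def G_EXP : Prop :=
  ∀ (N : ℕ) (χ f : ℕ → Fin 3),
    (F N χ : ℤ) = F N f + ∑ z ∈ dif N χ f, ((W N f (χ z) z : ℤ) - W N f (f z) z) + Q2 N χ f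

/-- QF.  If all changes are of endpoint type, the second and third order terms are a constant
quadratic form in the numbers `σ i = |ER i| - |EL i|`, up to `|dif|`.  Proof.  Put
`E_i = ER m χ i ∪ EL m χ i`, contained in `(e_i m - m/4, e_i m + m/4]`; these are disjoint with union
`dif`.  For `x ∈ E_i` one has `h c x = s (1[c = lc i] - 1[c = rc i])` with `s = 1` on `ER`, `s = -1`
on `EL`, so `∑_{x ∈ E_i} h c x = σ i (1[c = lc i] - 1[c = rc i])`.
(a) No pair has all three members in `dif`: `|e_i + e_j - e_k| ≥ 1` for all `i, j, k` and the three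
deviations add up to less than `m`.  So the `hhh` terms vanish.
(b) `x ∈ E_i`, `y ∈ E_j`: `x + y` is within `m/2` of `(e_i + e_j) m`.  If `e_i + e_j ≥ 68` then
`x + y > 67 m`; otherwise `e_i + e_j ≤ 66` is not an endpoint, the blocks `e_i+e_j-1` and `e_i+e_j`
have the same colour, which is the colour of `x + y`; so the `h h ind` terms give
`σ i σ j K(i,j)`, `K(i,j) = ∑_c (1[c=lc i]-1[c=rc i]) (1[c=lc j]-1[c=rc j]) 1[c = blk (e_i+e_j)]`.
(c) `x ∈ E_i`, `x + y ∈ E_j`, `e_j > e_i`: `y` is within `m/2` of `(e_j - e_i) m`, which is not an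
endpoint and is ≥ m; so `y` has the constant colour `blk (e_j - e_i)`.  If `e_j < e_i`: impossible.
(d) `x, x + y ∈ E_i`: `1 ≤ y < m/2 + 1` has colour `0` (block 0), and every endpoint has `0` as one
of its two colours, so `h 0 x = ± s`; the terms give `∑_{x<z in E_i} h 0 x * h 0 z =
(σ i ² - |E_i|)/2`.  Both kinds `h ind h` and `ind h h` give the same sum (exchange `x` and `y`).
Total: `∑_{i,j} kap i j σ i σ j - |dif|`, where `kap i j = K(i,j) + K'(i,j)`, `K'` the analogous
coefficient with `blk |e_i - e_j|` (`decide`).  (Checked by computer on random examples.) -/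
def G_QF : Prop :=
  ∀ (m : ℕ) (χ : ℕ → Fin 3), 1 ≤ m →
    (∀ x ∈ dif (67 * m) χ (col m), ∃ i : Fin 6, isR m i x (χ x) ∨ isL m i x (χ x)) →
    Q2 (67 * m) χ (col m) =
      (∑ i : Fin 6, ∑ j : Fin 6, kap i j * (((ER m χ i).card : ℤ) - (EL m χ i).card)
        * (((ER m χ j).card : ℤ) - (EL m χ j).card)) - (dif (67 * m) χ (col m)).card

/-- PSD.  Positivity of the form.  With `τ = a + b`, `σ = b - a` one has
`∑ sl (a²+b²)/2 = ∑ sl (τ² + σ²)/4` and `|σ| ≤ τ`, so it is at least
`∑ sl τ²/8 + ∑ (3/8) sl σ²`; the matrix `kap + diag((3/8) sl)` is positive definite (pivots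
3.125, 1.055, 1.802, 0.820, 0.438, 0.121), and `∑ sl τ² /8 ≥ (∑ τ)² * (3/46) / 2 = 3 (∑ τ)² / 92`
by Cauchy-Schwarz (`∑ 1 / sl = 23/6`). -/
def G_PSD : Prop :=
  ∀ a b : Fin 6 → ℤ, (∀ i, 0 ≤ a i) → (∀ i, 0 ≤ b i) →
    (∑ i, (a i + b i)) ^ 2 ≤
      20 * ∑ i, sl i * ((a i) ^ 2 + (b i) ^ 2)
        + 40 * ∑ i, ∑ j, kap i j * (b i - a i) * (b j - a j)

/-- END.  If all changes are of endpoint type: `40 F χ ≥ 40 F (col m) + |dif|² - 600 |dif|`.
Proof: EXP, QF; the first order term is at least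
`∑_i sl i (∑_{x ∈ ER i} (x - e_i m) + ∑_{x ∈ EL i} (e_i m - x)) - 10 |dif|` by GAP; `b` distinct
positive integers have sum at least `b (b+1) / 2`, `a` distinct nonnegative integers at least
`a (a - 1) / 2`; `sl ≤ 3`; then PSD. -/
def G_END : Prop :=
  ∀ (m : ℕ) (χ : ℕ → Fin 3), 1 ≤ m →
    (∀ x ∈ dif (67 * m) χ (col m), ∃ i : Fin 6, isR m i x (χ x) ∨ isL m i x (χ x)) →
    40 * (F (67 * m) (col m) : ℤ) + ((dif (67 * m) χ (col m)).card : ℤ) ^ 2
      - 600 * (dif (67 * m) χ (col m)).card ≤ 40 * F (67 * m) χ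

/-- MUL.  The theorem for `n = 67 m`.  Let `D = dif`, `P, R` as above, `E` the rest (endpoint type).
PLAT; then LIN with `f = col m`, `D1 = R` for the colouring `χ1` (its difference set is `R ∪ E`);
then END for the colouring which is `col m` on `P ∪ R` and `χ` elsewhere.  Together with GAP:
`F χ ≥ F (col m) + |E|²/40 - 15 |E| + |R| ((m - 40)/4 - 20 |D|) + |P|²/3 - |P|`, and
`20 |D| ≤ m/8`, so `|R| ((m-40)/4 - 20|D|) ≥ |R| (m/8 - 10) ≥ 20 |R|² - 10 |R|`; finally
`(|E| + |R| + |P|)² ≤ (40 + 1/20 + 3) (|E|²/40 + 20 |R|² + |P|²/3) ≤ 44 (…)` and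
`F (col m) = 67 m² - 13 m` (Helper33: ordSet; or 2 * 67 m² - 26 m = 80 m (m-1) + 54 m (m+1)). -/
def G_MUL : Prop :=
  ∀ (m : ℕ) (χ : ℕ → Fin 3), 1 ≤ m → 160 * (dif (67 * m) χ (col m)).card ≤ m →
    44 * (67 * (m : ℤ) ^ 2 - 13 * m) + ((dif (67 * m) χ (col m)).card : ℤ) ^ 2
      - 660 * (dif (67 * m) χ (col m)).card ≤ 44 * F (67 * m) χ

/-- the seven-interval colouring of `{1, …, n}` for every `n` -/
def ref (n x : ℕ) : Fin 3 :=
  if 67 * x ≤ 10 * n then 0 else if 67 * x ≤ 24 * n then 1 else if 67 * x ≤ 26 * n then 0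
  else if 67 * x ≤ 54 * n then 2 else if 67 * x ≤ 55 * n then 0 else if 67 * x ≤ 66 * n then 1
  else 0

/-- FIN.  The final statement.  Proof: `m = n / 67`; `ref n` and `col m` differ on `{1, …, 67 m}` in
at most `6 * 66` places (`e_i m ≤ e_i n / 67 < e_i m + 66`), so the number `d'` of differences of `χ`
from `col m` on `{1, …, 67 m}` and the number `d` of differences from `ref n` on `{1, …, n}` differ by
at most 500.  If `n ≥ 10^8` then `160 d' ≤ 160 (n/12000 + 500) ≤ m` and MUL applies;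
`schurMono χ n ≥ schurMono χ (67 m) ≥ F (67 m) χ / 2`.  For `n < 10^8` take `K = 2 * 10^6`
(`n² / 134 + d² / 100 ≤ n² / 50`).  The upper bound for `ref n` (second part): `F (67 m) (col m) =
67 m² - 13 m`, `2 schurMono ≤ F + n`, and every place (of the at most 500 changed or added ones) is
in at most `3 n` pairs. -/
def G_FIN : Prop :=
  ∃ K : ℝ, (∀ (n : ℕ) (χ : ℕ → Fin 3), 12000 * (dif n χ (ref n)).card ≤ n →
      (n : ℝ) ^ 2 / 134 + ((dif n χ (ref n)).card : ℝ) ^ 2 / 100 - K * n ≤ schurMono χ n) ∧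
    (∀ n : ℕ, (schurMono (ref n) n : ℝ) ≤ (n : ℝ) ^ 2 / 134 + K * n)

end Pool.Agent.Helper43.LO
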