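import Pool.Agent.Helper43.LO.Goals
import Pool.Agent.Helper50.LO.BLK
import Pool.Agent.Helper39.LO.GAP
import Pool.Agent.Helper14.LO.LIN
import Pool.Agent.Helper86.LO.PLAT
import Pool.Agent.Helper96.LO.EXP
import Pool.Agent.Helper82.LO.QF
import Pool.Agent.Helper42.LO.PSD
import Pool.Agent.Helper8.LO.END
import Pool.Agent.Helper12.LO.MUL
import Pool.Agent.Helper35.LO.FIN

set_option autoImplicit false

namespace Pool.Agent.Helper43.LO

theorem main : G_FIN := by
  have hGAP : G_GAP := Pool.Agent.Helper39.LO.goalGAP Pool.Agent.Helper50.LO.goalBLK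
  have hEND : G_END := Pool.Agent.Helper8.LO.goalEND hGAP Pool.Agent.Helper96.LO.goalEXP
    Pool.Agent.Helper82.LO.goalQF Pool.Agent.Helper42.LO.goalPSD
  exact Pool.Agent.Helper35.LO.goalFIN (Pool.Agent.Helper12.LO.goalMUL hGAP
    Pool.Agent.Helper14.LO.goalLIN Pool.Agent.Helper86.LO.goalPLAT hEND)

end Pool.Agent.Helper43.LO
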